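import Pool.Agent.H724.WE.Final

/-!
# MP_fd2cd0_lc, Q1: a positive answer

Every word equation `U = V` (over a finite alphabet `A` of constants, in the free semigroup) with
infinitely many solutions has solutions of arbitrarily large exponent of periodicity.

Solutions are substitutions of nonempty words for the variables; two solutions are counted as
different only if they differ at a variable which occurs in `U = V`.

Outline of the proof (details in `Pool/Agent/H724/WE/`). Let `W = σ(U) = σ(V)` be a very long solution
word whose powers are bounded. Each pair of occurrences of a variable is a band identifying two
factors of `W`. A greedy (Kruskal) choice of band edges at cut points, long offsets first, gives a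
forest in which the chosen offsets of each band form an interval; at a scale window `[r, 2l)` free of
thresholds the graph of offsets in `[r, l)` on the classes of cut points modulo offsets `≥ l` is a
forest stable under translation away from few marked points. A combinatorial analysis of such
shift forests gives either a bound on `l / r` or a pump: a way of inserting high powers at some cut
points such that every band still carries equal words on its two sides.
-/

namespace Pool.Agent.Results.MP_fd2cd0_lc.UnboundedExponent

open H724.WE

theorem result (A Ω : Type) [Finite A] (U V : List (A ⊕ Ω))
    (hinf : Set.Infinite
      {τ : {X : Ω // Occ U V X} → List A | ∃ σ : Ω → List A, IsSol U V σ ∧ ∀ X, τ X = σ X.1})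
    (n : ℕ) :
    ∃ σ : Ω → List A, IsSol U V σ ∧ ∃ X : Ω, Occ U V X ∧ ∃ w : List A, w ≠ [] ∧
      (List.replicate n w).flatten <:+: σ X :=
  Q1_true A Ω U V hinf n

end Pool.Agent.Results.MP_fd2cd0_lc.UnboundedExponent
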